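import Mathlib
import Pool.Agent.Lib.MP_845d9b_co.Abs.All

set_option autoImplicit false

namespace Pool.Agent.Results.MP_162c7e_co.AllLargeOrders

/-- For every sufficiently large `r` the residues `2, ..., r-2` modulo `r-1` can be ordered so that
all initial sums are distinct and nonzero, and the same holds after lowering each term by `1`
(so, by Keedwell's criterion, an array `A_r^*` exists). -/
theorem result :
    ∃ r0 : ℕ, ∀ r : ℕ, r0 ≤ r → ∃ σ : Equiv.Perm (Fin (r - 3)),
      (Function.Injective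
          (fun k : Fin (r - 3) => ∑ i ∈ Finset.Iic k, (((σ i : ℕ) + 2 : ℕ) : ZMod (r - 1))) ∧
        ∀ k : Fin (r - 3), ∑ i ∈ Finset.Iic k, (((σ i : ℕ) + 2 : ℕ) : ZMod (r - 1)) ≠ 0) ∧
      (Function.Injective
          (fun k : Fin (r - 3) => ∑ i ∈ Finset.Iic k, (((σ i : ℕ) + 1 : ℕ) : ZMod (r - 1))) ∧
        ∀ k : Fin (r - 3), ∑ i ∈ Finset.Iic k, (((σ i : ℕ) + 1 : ℕ) : ZMod (r - 1)) ≠ 0) :=
  Pool.Agent.DNA.good_large

end Pool.Agent.Results.MP_162c7e_co.AllLargeOrders
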