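import Mathlib
import Pool.Agent.Lib.MP_162c7e_co.Products2

set_option autoImplicit false

namespace Pool.Agent.Results.MP_162c7e_co.EvenProducts

/-- Let `r = g u + 1` with `g` even and `u` prime to `6`, where `12 ≤ g ≤ 56`, or `g` is a power
of two at least `8`. Then the residues `2, ..., r-2` modulo `r-1` can be ordered so that all initial
sums are distinct and nonzero, and the same holds after lowering each term by `1`. -/
theorem result :
    ∀ g u r : ℕ, r = g * u + 1 → g % 2 = 0 → Nat.Coprime u 6 →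
      ((12 ≤ g ∧ g ≤ 56) ∨ (∃ a, 3 ≤ a ∧ g = 2 ^ a)) →
      ∃ σ : Equiv.Perm (Fin (r - 3)),
      (Function.Injective
          (fun k : Fin (r - 3) => ∑ i ∈ Finset.Iic k, (((σ i : ℕ) + 2 : ℕ) : ZMod (r - 1))) ∧
        ∀ k : Fin (r - 3), ∑ i ∈ Finset.Iic k, (((σ i : ℕ) + 2 : ℕ) : ZMod (r - 1)) ≠ 0) ∧
      (Function.Injective
          (fun k : Fin (r - 3) => ∑ i ∈ Finset.Iic k, (((σ i : ℕ) + 1 : ℕ) : ZMod (r - 1))) ∧
        ∀ k : Fin (r - 3), ∑ i ∈ Finset.Iic k, (((σ i : ℕ) + 1 : ℕ) : ZMod (r - 1)) ≠ 0) := by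
  intro g u r hr hg hu h
  subst hr
  exact DNeo.good_product g u hg hu h

end Pool.Agent.Results.MP_162c7e_co.EvenProducts
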